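import Pool.Agent.R976.Alt

set_option autoImplicit false

open MeasureTheory Filter Topology ENNReal NNReal

namespace Pool.Agent.Results.MP_bae362_pr.ContaminationOrder

open Pool.Agent.R976.Alt

variable {E : Type*} [MeasurableSpace E]

/-- `m(A) = ∫_A L dπ`. -/
noncomputable def m (π : Measure E) (L : E → ℝ≥0) (A : Set E) : ℝ≥0∞ := ∫⁻ x in A, L x ∂π

/-- `M(A) = sup_{x ∈ A} L(x)`, the supremum over the empty set being `0`. -/
noncomputable def M (L : E → ℝ≥0) (A : Set E) : ℝ≥0∞ := ⨆ x ∈ A, (L x : ℝ≥0∞)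

/-- The posterior upper probability of the `ε`-contamination model,
`v_y(A) = ((1 - ε) m(A) + ε M(A)) / ((1 - ε) m(E) + ε M(A))`, read as `1` if `M(A) = ∞`
(and as `0` if numerator and denominator vanish). -/
noncomputable def v (π : Measure E) (L : E → ℝ≥0) (ε : ℝ≥0) (A : Set E) : ℝ :=
  if M L A = ∞ then 1 else
    (((1 - ε : ℝ≥0) * m π L A + ε * M L A) / ((1 - ε : ℝ≥0) * m π L Set.univ + ε * M L A)).toReal

omit [MeasurableSpace E] in
lemma M_union (L : E → ℝ≥0) (A B : Set E) : M L (A ∪ B) = max (M L A) (M L B) := by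
  unfold M
  rw [iSup_union]

/-- **The posterior upper probability of the contamination model is completely alternating.** -/
theorem result (π : Measure E) [IsProbabilityMeasure π] (L : E → ℝ≥0) (hL : Measurable L)
    (hfin : ∫⁻ x, L x ∂π ≠ ∞) (ε : ℝ≥0) (hε0 : 0 < ε) (hε1 : ε < 1) (n : ℕ) (hn : 1 ≤ n) :
    Alternating {A : Set E | MeasurableSet A} (v π L ε) n := by
  classical
  set 𝒜 : Set (Set E) := {A : Set E | MeasurableSet A} with h𝒜
  have hU : ∀ A ∈ 𝒜, ∀ B ∈ 𝒜, A ∪ B ∈ 𝒜 := fun A hA B hB => MeasurableSet.union hA hB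
  have hI : ∀ A ∈ 𝒜, ∀ B ∈ 𝒜, A ∩ B ∈ 𝒜 := fun A hA B hB => MeasurableSet.inter hA hB
  refine alternating_of_CM hI hn ?_
  have hLm : Measurable (fun x => (L x : ℝ≥0∞)) := hL.coe_nnreal_ennreal
  have hδ : (1 - ε : ℝ≥0) ≠ 0 := by
    intro h; exact absurd (tsub_eq_zero_iff_le.1 h) (not_le.2 hε1)
  have hfin' : m π L Set.univ ≠ ∞ := by unfold m; rwa [setLIntegral_univ]
  have hmfin : ∀ A, m π L A ≠ ∞ := fun A =>
    ne_top_of_le_ne_top hfin' (lintegral_mono_set (Set.subset_univ _))
  have hadd : ∀ A ∈ 𝒜, m π L A + m π L Aᶜ = m π L Set.univ := by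
    intro A hA
    unfold m
    rw [setLIntegral_univ, lintegral_add_compl _ hA]
  by_cases hc : m π L Set.univ = 0
  · have hm0 : ∀ A, m π L A = 0 := fun A =>
      le_antisymm ((lintegral_mono_set (Set.subset_univ A)).trans hc.le) bot_le
    have hv : ∀ A, 1 - v π L ε A = 1 * (if M L A = 0 then (1:ℝ) else 0) := by
      intro A
      unfold v
      rw [hm0 A, hc, mul_zero, zero_add]
      by_cases h1 : M L A = ∞
      · rw [if_pos h1, if_neg (by rw [h1]; exact ENNReal.top_ne_zero)]; ring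
      · rw [if_neg h1]
        by_cases h2 : M L A = 0
        · rw [if_pos h2, h2]; simp
        · rw [if_neg h2, ENNReal.div_self (mul_ne_zero (by exact_mod_cast hε0.ne') h2)
            (ENNReal.mul_ne_top ENNReal.coe_ne_top h1)]
          simp
    have := CM_mulind (𝒜 := 𝒜) (n := n) (g := fun A => if M L A = 0 then (1:ℝ) else 0) hU ?_ ?_ ?_
      (c := 1) zero_le_one
    · exact this.congr hU fun K _ => (hv K).symm
    · intro A _ B _
      have h3 : M L (A ∪ B) = 0 ↔ M L A = 0 ∧ M L B = 0 := by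
        rw [M_union]
        constructor
        · intro h
          exact ⟨le_antisymm ((le_max_left _ _).trans h.le) bot_le,
            le_antisymm ((le_max_right _ _).trans h.le) bot_le⟩
        · rintro ⟨h4, h5⟩; rw [h4, h5, max_self]
      by_cases h4 : M L A = 0 <;> by_cases h5 : M L B = 0 <;> simp [h3, h4, h5]
    · intro A; split_ifs <;> norm_num
    · intro A; split_ifs <;> norm_num
  · have hcpos : (1 - ε : ℝ≥0) * m π L Set.univ ≠ 0 := mul_ne_zero (by exact_mod_cast hδ) hc
    have hctop : (1 - ε : ℝ≥0) * m π L Set.univ ≠ ∞ := ENNReal.mul_ne_top ENNReal.coe_ne_top hfin'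
    have hv : ∀ A ∈ 𝒜, 1 - v π L ε A = ((1 - ε : ℝ≥0) * m π L Aᶜ).toReal *
        (((1 - ε : ℝ≥0) * m π L Set.univ + ε * M L A)⁻¹).toReal := by
      intro A hA
      unfold v
      by_cases h1 : M L A = ∞
      · rw [if_pos h1, h1, ENNReal.mul_top (by exact_mod_cast hε0.ne')]; simp
      · rw [if_neg h1]
        have hMt : (ε : ℝ≥0∞) * M L A ≠ ∞ := ENNReal.mul_ne_top ENNReal.coe_ne_top h1
        have h3 : ((1 - ε : ℝ≥0) * m π L Set.univ + ε * M L A).toReal ≠ 0 :=
          ENNReal.toReal_ne_zero.2 ⟨fun h => hcpos (add_eq_zero.1 h).1,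
            ENNReal.add_ne_top.2 ⟨hctop, hMt⟩⟩
        rw [ENNReal.toReal_div, ENNReal.toReal_inv]
        have e1 : (((1 - ε : ℝ≥0) * m π L Set.univ + ε * M L A) : ℝ≥0∞).toReal =
            (((1 - ε : ℝ≥0) * m π L A + ε * M L A) : ℝ≥0∞).toReal +
              ((1 - ε : ℝ≥0) * m π L Aᶜ).toReal := by
          rw [← ENNReal.toReal_add (ENNReal.add_ne_top.2
            ⟨ENNReal.mul_ne_top ENNReal.coe_ne_top (hmfin A), hMt⟩)
            (ENNReal.mul_ne_top ENNReal.coe_ne_top (hmfin _))]
          congr 1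
          rw [← hadd A hA]
          ring
        rw [← div_eq_mul_inv, eq_div_iff h3, sub_mul, one_mul, div_mul_cancel₀ _ h3, e1]
        ring
    have hT : CM 𝒜 n (fun K => ((1 - ε : ℝ≥0) * m π L Kᶜ).toReal) := by
      have h1 := CM_integral (μ := π) (𝒜 := 𝒜) (n := n)
        (f := fun x K => (((1 - ε : ℝ≥0) : ℝ) * (L x : ℝ)) * (if x ∈ K then (0:ℝ) else 1)) hU ?_ ?_
      · refine h1.congr hU fun K hK => ?_
        have hK' : MeasurableSet K := hK
        have e1 : (fun x => (((1 - ε : ℝ≥0) : ℝ) * (L x : ℝ)) * (if x ∈ K then (0:ℝ) else 1)) =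
            fun x => ((1 - ε : ℝ≥0) : ℝ) * (Kᶜ.indicator (fun x => (L x : ℝ)) x) := by
          funext x
          by_cases h : x ∈ K
          · simp [h]
          · simp [h]
        rw [e1, integral_const_mul, integral_indicator hK'.compl, ENNReal.toReal_mul]
        congr 1
        unfold m
        rw [← integral_toReal]
        · rfl
        · exact hLm.aemeasurable
        · exact Eventually.of_forall fun x => ENNReal.coe_lt_top
      · intro x
        refine CM_mulind hU (fun A _ B _ => ?_) (fun A => ?_) (fun A => ?_) (by positivity)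
        · by_cases h1 : x ∈ A <;> by_cases h2 : x ∈ B <;> simp [h1, h2]
        · split_ifs <;> norm_num
        · split_ifs <;> norm_num
      · intro K hK
        have h2 : Integrable (fun x => (L x : ℝ)) π :=
          integrable_toReal_of_lintegral_ne_top hLm.aemeasurable hfin
        have h3 := (h2.indicator (MeasurableSet.compl hK)).const_mul ((1 - ε : ℝ≥0) : ℝ)
        refine h3.congr (Eventually.of_forall fun x => ?_)
        by_cases h : x ∈ K
        · simp [h]
        · simp [h]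
    have hH : CM 𝒜 n (fun K => (((1 - ε : ℝ≥0) * m π L Set.univ + ε * M L K)⁻¹).toReal) := by
      have hfinK : ∀ k : ℕ, ∀ K, min (M L K) (k : ℝ≥0∞) ≠ ∞ := fun k K =>
        ne_top_of_le_ne_top (ENNReal.natCast_ne_top k) (min_le_right _ _)
      have hεK : ∀ k : ℕ, ∀ K, (ε : ℝ≥0∞) * min (M L K) (k : ℝ≥0∞) ≠ ∞ := fun k K =>
        ENNReal.mul_ne_top ENNReal.coe_ne_top (hfinK k K)
      have hcm : ∀ k : ℕ, CM 𝒜 n (fun K =>
          (((1 - ε : ℝ≥0) * m π L Set.univ + ε * min (M L K) (k : ℝ≥0∞)).toReal)⁻¹) := by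
        intro k
        refine CM.inv hU (fun K _ => ?_) fun j A hA => ?_
        · exact ENNReal.toReal_pos (fun h => hcpos (add_eq_zero.1 h).1)
            (ENNReal.add_ne_top.2 ⟨hctop, hεK k K⟩)
        · have h1 := CM_incr (𝒜 := 𝒜) (n := j) (η := fun K => (min (M L K) (k : ℝ≥0∞)).toReal)
            (fun A B => by
              rw [M_union, min_max_distrib_right, ENNReal.toReal_max (hfinK k A) (hfinK k B)]) A
          have h2 := CM_mulind (𝒜 := 𝒜) (n := j) (g := fun _ => (1:ℝ)) hU (fun _ _ _ _ => by norm_num)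
            (fun _ => by norm_num) (fun _ => le_rfl) (c := (ε : ℝ)) ε.2
          refine (h2.mul hU h1).congr hU fun K _ => ?_
          show (ε : ℝ) * 1 * _ = _
          rw [ENNReal.toReal_add hctop (hεK k _), ENNReal.toReal_add hctop (hεK k _)]
          simp only [ENNReal.toReal_mul, ENNReal.coe_toReal]
          ring
      refine CM.lim hU hcm fun K _ => ?_
      have hlim : Tendsto (fun k : ℕ => ((1 - ε : ℝ≥0) * m π L Set.univ + ε * min (M L K) (k : ℝ≥0∞)))
          atTop (𝓝 ((1 - ε : ℝ≥0) * m π L Set.univ + ε * M L K)) := by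
        have h1 : Tendsto (fun k : ℕ => min (M L K) (k : ℝ≥0∞)) atTop (𝓝 (min (M L K) ∞)) :=
          tendsto_const_nhds.min ENNReal.tendsto_nat_nhds_top
        rw [min_eq_left le_top] at h1
        exact tendsto_const_nhds.add (ENNReal.Tendsto.const_mul h1 (Or.inr ENNReal.coe_ne_top))
      have h1 := tendsto_inv_iff.2 hlim
      have h2 : ((1 - ε : ℝ≥0) * m π L Set.univ + ε * M L K)⁻¹ ≠ ∞ := by
        rw [Ne, ENNReal.inv_eq_top]
        intro h3
        exact hcpos (add_eq_zero.1 h3).1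
      have h3 := (ENNReal.tendsto_toReal h2).comp h1
      refine h3.congr fun k => ?_
      simp [ENNReal.toReal_inv]
    exact (hT.mul hU hH).congr hU fun K hK => (hv K hK).symm

end Pool.Agent.Results.MP_bae362_pr.ContaminationOrder
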