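import Pool.Agent.R976.Alt

set_option autoImplicit false

open MeasureTheory Filter Topology ENNReal NNReal

namespace Pool.Agent.Results.MP_bae362_pr.RandomSetOrder

open Pool.Agent.R976.Alt

variable {Ω E : Type*} [MeasurableSpace Ω]

/-- `s(A) = E[sup_{x ∈ X ∩ A} L(x)]`, the supremum over the empty set being `0`. -/
noncomputable def s (P : Measure Ω) (X : Ω → Set E) (L : E → ℝ≥0) (A : Set E) : ℝ≥0∞ :=
  ∫⁻ ω, ⨆ x ∈ X ω ∩ A, (L x : ℝ≥0∞) ∂P

/-- `t(A) = E[inf_{x ∈ X} L(x) · 1{X ∩ A = ∅}]`. -/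
noncomputable def t (P : Measure Ω) (X : Ω → Set E) (L : E → ℝ≥0) (A : Set E) : ℝ≥0∞ :=
  ∫⁻ ω, {ω | X ω ∩ A = ∅}.indicator (fun ω => ⨅ x ∈ X ω, (L x : ℝ≥0∞)) ω ∂P

/-- The posterior upper probability `v_y(A) = s(A) / (s(A) + t(A))`, read as `1` if `s(A) = ∞`
(and as `0` if `s(A) = t(A) = 0`). -/
noncomputable def v (P : Measure Ω) (X : Ω → Set E) (L : E → ℝ≥0) (A : Set E) : ℝ :=
  if s P X L A = ∞ then 1 else (s P X L A / (s P X L A + t P X L A)).toReal

section

variable {P : Measure Ω} [IsProbabilityMeasure P] {X : Ω → Set E} {L : E → ℝ≥0}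
  {𝒜 : Set (Set E)}

/-- the infimum of the likelihood on `X` -/
noncomputable def ell (X : Ω → Set E) (L : E → ℝ≥0) (ω : Ω) : ℝ≥0∞ := ⨅ x ∈ X ω, (L x : ℝ≥0∞)

/-- the supremum of the likelihood on `X ∩ A` -/
noncomputable def sig (X : Ω → Set E) (L : E → ℝ≥0) (ω : Ω) (A : Set E) : ℝ≥0∞ :=
  ⨆ x ∈ X ω ∩ A, (L x : ℝ≥0∞)

omit [MeasurableSpace Ω] in
lemma sig_union (ω : Ω) (A B : Set E) : sig X L ω (A ∪ B) = max (sig X L ω A) (sig X L ω B) := by
  unfold sig
  rw [Set.inter_union_distrib_left, iSup_union]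

omit [MeasurableSpace Ω] in
lemma ell_ne_top (hne : ∀ ω, (X ω).Nonempty) (ω : Ω) : ell X L ω ≠ ∞ := by
  obtain ⟨x, hx⟩ := hne ω
  exact ne_top_of_le_ne_top ENNReal.coe_ne_top (iInf₂_le x hx)

omit [MeasurableSpace Ω] in
lemma max_eq (ω : Ω) (A : Set E) : max (ell X L ω) (sig X L ω A) =
    sig X L ω A + {ω | X ω ∩ A = ∅}.indicator (ell X L) ω := by
  by_cases h : X ω ∩ A = ∅
  · have h1 : sig X L ω A = 0 := by simp [sig, h]
    rw [h1, Set.indicator_of_mem (show ω ∈ {ω | X ω ∩ A = ∅} from h)]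
    simp
  · rw [Set.indicator_of_notMem (show ω ∉ {ω | X ω ∩ A = ∅} from h), add_zero]
    obtain ⟨x, hx⟩ := Set.nonempty_iff_ne_empty.2 h
    refine max_eq_right ?_
    exact (iInf₂_le x hx.1).trans (le_iSup₂ (f := fun x (_ : x ∈ X ω ∩ A) => (L x : ℝ≥0∞)) x hx)

/-- the truncated integrand of `s + t` -/
noncomputable def eta (X : Ω → Set E) (L : E → ℝ≥0) (k : ℕ) (ω : Ω) (A : Set E) : ℝ≥0∞ :=
  max (ell X L ω) (min (sig X L ω A) k)

omit [MeasurableSpace Ω] in
lemma eta_union (k : ℕ) (ω : Ω) (A B : Set E) :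
    eta X L k ω (A ∪ B) = max (eta X L k ω A) (eta X L k ω B) := by
  unfold eta
  rw [sig_union, min_max_distrib_right]
  rw [max_max_max_comm, max_self]

omit [MeasurableSpace Ω] in
lemma eta_le (k : ℕ) (ω : Ω) (A : Set E) : eta X L k ω A ≤ ell X L ω + k :=
  max_le (le_self_add) ((min_le_right _ _).trans le_add_self)

omit [MeasurableSpace Ω] in
lemma eta_ne_top (hne : ∀ ω, (X ω).Nonempty) (k : ℕ) (ω : Ω) (A : Set E) : eta X L k ω A ≠ ∞ :=
  ne_top_of_le_ne_top (ENNReal.add_ne_top.2 ⟨ell_ne_top hne ω, ENNReal.natCast_ne_top k⟩)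
    (eta_le k ω A)

/-- **The posterior upper probability of a random set model is completely alternating.** -/
theorem result (hne : ∀ ω, (X ω).Nonempty)
    (hU : ∀ A ∈ 𝒜, ∀ B ∈ 𝒜, A ∪ B ∈ 𝒜) (hI : ∀ A ∈ 𝒜, ∀ B ∈ 𝒜, A ∩ B ∈ 𝒜)
    (hsup : ∀ A ∈ 𝒜, AEMeasurable (fun ω => ⨆ x ∈ X ω ∩ A, (L x : ℝ≥0∞)) P)
    (hhit : ∀ A ∈ 𝒜, NullMeasurableSet {ω | X ω ∩ A = ∅} P)
    (hinf : AEMeasurable (fun ω => ⨅ x ∈ X ω, (L x : ℝ≥0∞)) P)
    (hfin : ∫⁻ ω, ⨅ x ∈ X ω, (L x : ℝ≥0∞) ∂P ≠ ∞) (n : ℕ) (hn : 1 ≤ n) :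
    Alternating 𝒜 (v P X L) n := by
  classical
  refine alternating_of_CM hI hn ?_
  have hinf' : AEMeasurable (ell X L) P := hinf
  have hfin' : ∫⁻ ω, ell X L ω ∂P ≠ ∞ := hfin
  have htle : ∀ A, t P X L A ≤ ∫⁻ ω, ell X L ω ∂P := fun A =>
    lintegral_mono fun ω => Set.indicator_le_self _ _ _
  have htfin : ∀ A, t P X L A ≠ ∞ := fun A => ne_top_of_le_ne_top hfin' (htle A)
  have hst : ∀ A ∈ 𝒜, s P X L A + t P X L A = ∫⁻ ω, max (ell X L ω) (sig X L ω A) ∂P := by
    intro A hA
    unfold s t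
    rw [← lintegral_add_left' (hsup A hA)]
    exact lintegral_congr fun ω => (max_eq ω A).symm
  have hlow : ∀ A ∈ 𝒜, ∫⁻ ω, ell X L ω ∂P ≤ s P X L A + t P X L A := by
    intro A hA
    rw [hst A hA]
    exact lintegral_mono fun ω => le_max_left _ _
  have hsU : ∀ A B, s P X L (A ∪ B) = ∫⁻ ω, max (sig X L ω A) (sig X L ω B) ∂P := by
    intro A B
    exact lintegral_congr fun ω => sig_union ω A B
  by_cases hc : ∫⁻ ω, ell X L ω ∂P = 0
  · -- degenerate case
    have ht0 : ∀ A, t P X L A = 0 := fun A => le_antisymm ((htle A).trans hc.le) bot_le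
    have hv : ∀ A, 1 - v P X L A = 1 * (if s P X L A = 0 then (1:ℝ) else 0) := by
      intro A
      unfold v
      rw [ht0 A, add_zero]
      by_cases h1 : s P X L A = ∞
      · rw [if_pos h1, if_neg (by rw [h1]; exact ENNReal.top_ne_zero)]; ring
      · rw [if_neg h1]
        by_cases h2 : s P X L A = 0
        · rw [if_pos h2, h2]; simp
        · rw [if_neg h2, ENNReal.div_self h2 h1]; simp
    have := CM_mulind (𝒜 := 𝒜) (n := n) (g := fun A => if s P X L A = 0 then (1:ℝ) else 0) hU ?_ ?_ ?_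
      (c := 1) zero_le_one
    · exact this.congr hU fun K _ => (hv K).symm
    · intro A hA B hB
      have h3 : s P X L (A ∪ B) = 0 ↔ s P X L A = 0 ∧ s P X L B = 0 := by
        rw [hsU]
        constructor
        · intro h
          exact ⟨le_antisymm ((lintegral_mono fun ω => le_max_left _ _).trans h.le) bot_le,
            le_antisymm ((lintegral_mono fun ω => le_max_right _ _).trans h.le) bot_le⟩
        · rintro ⟨h4, h5⟩
          refine le_antisymm ?_ bot_le
          calc ∫⁻ ω, max (sig X L ω A) (sig X L ω B) ∂P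
              ≤ ∫⁻ ω, (sig X L ω A + sig X L ω B) ∂P := lintegral_mono fun ω =>
                max_le le_self_add le_add_self
            _ = ∫⁻ ω, sig X L ω A ∂P + ∫⁻ ω, sig X L ω B ∂P := lintegral_add_left' (hsup A hA) _
            _ = 0 := by
                change s P X L A + s P X L B = 0
                rw [h4, h5, add_zero]
      by_cases h4 : s P X L A = 0 <;> by_cases h5 : s P X L B = 0 <;> simp [h3, h4, h5]
    · intro A; split_ifs <;> norm_num
    · intro A; split_ifs <;> norm_num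
  · -- main case
    have hv : ∀ A ∈ 𝒜, 1 - v P X L A = (t P X L A).toReal * ((s P X L A + t P X L A)⁻¹).toReal := by
      intro A hA
      unfold v
      by_cases h1 : s P X L A = ∞
      · rw [if_pos h1, h1]; simp
      · rw [if_neg h1]
        have h2 : s P X L A + t P X L A ≠ 0 := by
          intro h3
          exact hc (le_antisymm ((hlow A hA).trans h3.le) bot_le)
        have h3 : (s P X L A + t P X L A).toReal ≠ 0 :=
          ENNReal.toReal_ne_zero.2 ⟨h2, ENNReal.add_ne_top.2 ⟨h1, htfin A⟩⟩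
        rw [ENNReal.toReal_div, ENNReal.toReal_inv]
        have h4 : (s P X L A + t P X L A).toReal = (s P X L A).toReal + (t P X L A).toReal :=
          ENNReal.toReal_add h1 (htfin A)
        rw [h4] at h3 ⊢
        field_simp
        ring
    have hT : CM 𝒜 n (fun K => (t P X L K).toReal) := by
      have h1 := CM_integral (μ := P) (𝒜 := 𝒜) (n := n)
        (f := fun ω K => (ell X L ω).toReal * (if X ω ∩ K = ∅ then (1:ℝ) else 0)) hU ?_ ?_
      · refine h1.congr hU fun K hK => ?_
        unfold t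
        rw [← integral_toReal]
        · refine integral_congr_ae (Eventually.of_forall fun ω => ?_)
          by_cases h : X ω ∩ K = ∅
          · simp [Set.indicator, h, ell]
          · simp [Set.indicator, h]
        · exact hinf.indicator₀ (hhit K hK)
        · refine Eventually.of_forall fun ω => lt_of_le_of_lt (Set.indicator_le_self _ _ _) ?_
          exact lt_top_iff_ne_top.2 (ell_ne_top hne ω)
      · intro ω
        refine CM_mulind hU (fun A _ B _ => ?_) (fun A => ?_) (fun A => ?_) ENNReal.toReal_nonneg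
        · rw [Set.inter_union_distrib_left]
          by_cases h1 : X ω ∩ A = ∅ <;> by_cases h2 : X ω ∩ B = ∅ <;> simp [h1, h2, Set.union_empty_iff]
        · split_ifs <;> norm_num
        · split_ifs <;> norm_num
      · intro K hK
        have h2 : Integrable (fun ω => (ell X L ω).toReal) P := integrable_toReal_of_lintegral_ne_top hinf' hfin'
        have h3 := h2.indicator₀ (hhit K hK)
        refine h3.congr (Eventually.of_forall fun ω => ?_)
        by_cases h : X ω ∩ K = ∅
        · simp [Set.indicator, h]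
        · simp [Set.indicator, h]
    have hH : CM 𝒜 n (fun K => ((s P X L K + t P X L K)⁻¹).toReal) := by
      -- truncations
      have hmeas : ∀ k : ℕ, ∀ K ∈ 𝒜, AEMeasurable (fun ω => eta X L k ω K) P := fun k K hK =>
        hinf'.max ((hsup K hK).min aemeasurable_const)
      have hle : ∀ k : ℕ, ∀ K, ∫⁻ ω, eta X L k ω K ∂P ≤ ∫⁻ ω, ell X L ω ∂P + k := by
        intro k K
        refine (lintegral_mono fun ω => eta_le k ω K).trans ?_
        rw [lintegral_add_left' hinf', lintegral_const]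
        simp
      have hfinK : ∀ k : ℕ, ∀ K, ∫⁻ ω, eta X L k ω K ∂P ≠ ∞ := fun k K =>
        ne_top_of_le_ne_top (ENNReal.add_ne_top.2 ⟨hfin', ENNReal.natCast_ne_top k⟩) (hle k K)
      have hpos : ∀ k : ℕ, ∀ K, 0 < (∫⁻ ω, eta X L k ω K ∂P).toReal := by
        intro k K
        refine ENNReal.toReal_pos ?_ (hfinK k K)
        intro h
        refine hc (le_antisymm (le_trans ?_ h.le) bot_le)
        exact lintegral_mono fun ω => le_max_left _ _
      have hint : ∀ k : ℕ, ∀ K ∈ 𝒜, Integrable (fun ω => (eta X L k ω K).toReal) P := fun k K hK =>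
        integrable_toReal_of_lintegral_ne_top (hmeas k K hK) (hfinK k K)
      have heq : ∀ k : ℕ, ∀ K ∈ 𝒜, (∫⁻ ω, eta X L k ω K ∂P).toReal = ∫ ω, (eta X L k ω K).toReal ∂P := by
        intro k K hK
        rw [integral_toReal (hmeas k K hK)]
        exact Eventually.of_forall fun ω => lt_top_iff_ne_top.2 (eta_ne_top hne k ω K)
      have hcm : ∀ k : ℕ, CM 𝒜 n (fun K => ((∫⁻ ω, eta X L k ω K ∂P).toReal)⁻¹) := by
        intro k
        refine CM.inv hU (fun K _ => hpos k K) fun j A hA => ?_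
        have h1 := CM_integral (μ := P) (𝒜 := 𝒜) (n := j)
          (f := fun ω K => (eta X L k ω (K ∪ A)).toReal - (eta X L k ω K).toReal) hU ?_ ?_
        · refine h1.congr hU fun K hK => ?_
          rw [heq k K hK, heq k _ (hU K hK A hA)]
          exact integral_sub (hint k _ (hU K hK A hA)) (hint k K hK)
        · intro ω
          refine CM_incr (η := fun K => (eta X L k ω K).toReal) (fun A B => ?_) A
          rw [eta_union, ENNReal.toReal_max (eta_ne_top hne k ω A) (eta_ne_top hne k ω B)]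
        · intro K hK
          exact (hint k _ (hU K hK A hA)).sub (hint k K hK)
      refine CM.lim hU hcm fun K hK => ?_
      have hlim : Tendsto (fun k : ℕ => ∫⁻ ω, eta X L k ω K ∂P) atTop
          (𝓝 (s P X L K + t P X L K)) := by
        rw [hst K hK]
        refine lintegral_tendsto_of_tendsto_of_monotone (fun k => hmeas k K hK)
          (Eventually.of_forall fun ω => ?_) (Eventually.of_forall fun ω => ?_)
        · intro i j hij
          exact max_le_max le_rfl (min_le_min le_rfl (by exact_mod_cast hij))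
        · have : Tendsto (fun k : ℕ => min (sig X L ω K) (k : ℝ≥0∞)) atTop (𝓝 (min (sig X L ω K) ∞)) :=
            tendsto_const_nhds.min ENNReal.tendsto_nat_nhds_top
          rw [min_eq_left le_top] at this
          exact tendsto_const_nhds.max this
      have h1 := tendsto_inv_iff.2 hlim
      have h2 : (s P X L K + t P X L K)⁻¹ ≠ ∞ := by
        rw [Ne, ENNReal.inv_eq_top]
        intro h3
        exact hc (le_antisymm ((hlow K hK).trans h3.le) bot_le)
      have h3 := (ENNReal.tendsto_toReal h2).comp h1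
      refine h3.congr fun k => ?_
      simp [ENNReal.toReal_inv]
    exact (hT.mul hU hH).congr hU fun K hK => (hv K hK).symm

end

end Pool.Agent.Results.MP_bae362_pr.RandomSetOrder
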